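import Mathlib

/-!
# Project LE (MP_baa4d7_al): coprime actions on finite abelian `p`-groups (pure group theory)

`A` a finite abelian `p`-group, `P` a group of automorphisms, `p` does not divide `|P|`.
-/

set_option autoImplicit false

namespace Pool.Agent.LE

section ALLA

variable {A : Type} [CommGroup A]

/-- The commutator homomorphism `w ↦ w⁻¹ φ(w)`. -/
def ALL_del (φ : MulAut A) : A →* A where
  toFun w := w⁻¹ * φ w
  map_one' := by simp
  map_mul' := by
    intro a b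
    rw [map_mul, mul_inv]
    exact mul_mul_mul_comm _ _ _ _

theorem ALL_del_apply (φ : MulAut A) (w : A) : ALL_del φ w = w⁻¹ * φ w := rfl

theorem ALL_del_ne {φ : MulAut A} (h : φ ≠ 1) : ∃ x, ALL_del φ x ≠ 1 := by
  by_contra hcon
  push Not at hcon
  apply h
  ext x
  have := hcon x
  rw [ALL_del_apply, inv_mul_eq_one] at this
  exact this.symm

theorem ALL_tel (φ : MulAut A) (x : A) (e : ℕ) :
    ∏ i ∈ Finset.range e, (φ ^ i) (ALL_del φ x) = x⁻¹ * (φ ^ e) x := by
  induction e with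
  | zero => simp
  | succ n ih =>
    rw [Finset.prod_range_succ, ih, ALL_del_apply, map_mul, map_inv, pow_succ, MulAut.mul_apply]
    group

/-- `φ ^ i y = y * del φ s`. -/
theorem ALL_pow (φ : MulAut A) (y : A) (i : ℕ) : ∃ s, (φ ^ i) y = y * ALL_del φ s := by
  induction i with
  | zero => exact ⟨1, by simp⟩
  | succ n ih =>
    obtain ⟨s, hs⟩ := ih
    refine ⟨(φ ^ n) y * s, ?_⟩
    rw [map_mul, ← mul_assoc, mul_comm y, mul_assoc, ← hs, ALL_del_apply, pow_succ', MulAut.mul_apply,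
      mul_comm, mul_inv_cancel_left]

/-- If `z ^ q` is a commutator, then `(z ^ q) ^ e` is the `q`-th power of a commutator. -/
theorem ALL_core (φ : MulAut A) (e : ℕ) (he : φ ^ e = 1) (z x : A) (q : ℕ) (h : z ^ q = ALL_del φ x) :
    ∃ y, (z ^ q) ^ e = ALL_del φ y ^ q := by
  have h1 : ∃ s, ∏ i ∈ Finset.range e, (φ ^ i) z = z ^ e * ALL_del φ s := by
    choose s hs using ALL_pow φ z
    refine ⟨∏ i ∈ Finset.range e, s i, ?_⟩
    rw [Finset.prod_congr rfl fun i _ => hs i, Finset.prod_mul_distrib, Finset.prod_const,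
      Finset.card_range, map_prod]
  obtain ⟨s, hs⟩ := h1
  have h2 : (∏ i ∈ Finset.range e, (φ ^ i) z) ^ q = 1 := by
    rw [← Finset.prod_pow]
    have : ∀ i ∈ Finset.range e, (φ ^ i) z ^ q = (φ ^ i) (ALL_del φ x) := by
      intro i _
      rw [← map_pow, h]
    rw [Finset.prod_congr rfl this, ALL_tel, he, MulAut.one_apply, inv_mul_cancel]
  rw [hs, mul_pow] at h2
  refine ⟨s⁻¹, ?_⟩
  rw [map_inv, inv_pow, ← pow_mul, mul_comm q e, pow_mul]
  exact eq_inv_of_mul_eq_one_left h2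

/-- order `p` elements -/
theorem ALL_exp {p : ℕ} (hA : IsPGroup p A) {x : A} (hx : x ≠ 1) :
    ∃ m : ℕ, x ^ p ^ m ≠ 1 ∧ x ^ p ^ (m + 1) = 1 := by
  classical
  have h := hA x
  set k := Nat.find h with hk
  have h1 : x ^ p ^ k = 1 := Nat.find_spec h
  have h0 : k ≠ 0 := by
    intro h0
    rw [h0, pow_zero, pow_one] at h1
    exact hx h1
  obtain ⟨m, hm⟩ := Nat.exists_eq_succ_of_ne_zero h0
  refine ⟨m, ?_, ?_⟩
  · exact Nat.find_min h (by rw [← hk, hm]; exact Nat.lt_succ_self m)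
  · rw [← Nat.succ_eq_add_one, ← hm]; exact h1

/-- **(W)**. -/
theorem ALL_wit {p : ℕ} (hp : p.Prime) (hA : IsPGroup p A) (φ : MulAut A) (hφ : φ ≠ 1) (e : ℕ)
    (he : φ ^ e = 1) (hpe : ¬ p ∣ e) (c : ℕ) (h : ∀ v : A, v ^ p = 1 → ∃ z : A, z ^ p ^ c = v) :
    ∃ w, ALL_del φ w ^ p ^ c ≠ 1 := by
  have hpf : Fact p.Prime := ⟨hp⟩
  obtain ⟨x, hx⟩ := ALL_del_ne hφ
  obtain ⟨m, hm, hm1⟩ := ALL_exp hA hx
  set v := ALL_del φ (x ^ p ^ m) with hv
  have hv1 : v ≠ 1 := by rw [hv, map_pow]; exact hm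
  have hvp : v ^ p = 1 := by rw [hv, map_pow, ← pow_mul, ← pow_succ]; exact hm1
  obtain ⟨z, hz⟩ := h v hvp
  obtain ⟨y, hy⟩ := ALL_core φ e he z (x ^ p ^ m) (p ^ c) (by rw [hz])
  refine ⟨y, ?_⟩
  rw [← hy, hz]
  have : orderOf v = p := orderOf_eq_prime hvp hv1
  intro h0
  apply hpe
  rw [← this]
  exact orderOf_dvd_of_pow_eq_one h0

variable [Finite A]

/-- the `q`-th powers -/
theorem ALL_kix {p : ℕ} (hp : p.Prime) (hA : IsPGroup p A) (φ : MulAut A) (e : ℕ)
    (he : φ ^ e = 1) (hpe : ¬ p ∣ e) (j : ℕ) (hj : 1 ≤ j) (hw : ∃ w, ALL_del φ w ^ p ^ (j - 1) ≠ 1) :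
    p ^ j * Nat.card ((powMonoidHom (p ^ j) : A →* A).range.comap (ALL_del φ)) ≤ Nat.card A := by
  have hpf : Fact p.Prime := ⟨hp⟩
  set q := p ^ j with hq
  set K := (powMonoidHom q : A →* A).range with hK
  set V := (ALL_del φ).range with hV
  set Vq := V.map (powMonoidHom q : A →* A) with hVq
  have h1 : K.comap (ALL_del φ) ≤ Vq.comap (ALL_del φ) := by
    intro u hu
    obtain ⟨z, hz⟩ := hu
    change z ^ q = ALL_del φ u at hz
    obtain ⟨y, hy⟩ := ALL_core φ e he z u q hz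
    rw [hz] at hy
    -- `v ^ e ∈ Vq`, `p ∤ e`
    have h2 : ALL_del φ u ^ e ∈ Vq := ⟨ALL_del φ y, ⟨y, rfl⟩, hy.symm⟩
    obtain ⟨k, hk⟩ := hA (ALL_del φ u)
    have hcop : Nat.Coprime e (p ^ k) := by
      apply Nat.Coprime.pow_right
      exact (hp.coprime_iff_not_dvd.2 hpe).symm
    have h3 : ALL_del φ u ∈ Vq := by
      have h4 : ((e : ℤ) * Nat.gcdA e (p ^ k) + (p ^ k : ℕ) * Nat.gcdB e (p ^ k)) = 1 := by
        have := Nat.gcd_eq_gcd_ab e (p ^ k)
        rw [hcop.gcd_eq_one] at this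
        exact_mod_cast this.symm
      have h5 : ALL_del φ u = (ALL_del φ u ^ e) ^ (Nat.gcdA e (p ^ k)) *
          (ALL_del φ u ^ (p ^ k)) ^ (Nat.gcdB e (p ^ k)) := by
        rw [← zpow_natCast, ← zpow_natCast, ← zpow_mul, ← zpow_mul, ← zpow_add, h4, zpow_one]
      rw [h5, hk, one_zpow, mul_one]
      exact Vq.zpow_mem h2 _
    exact h3
  have h2 : Nat.card (K.comap (ALL_del φ)) ≤ Nat.card (Vq.comap (ALL_del φ)) :=
    Nat.card_le_card_of_injective _ (Subgroup.inclusion_injective h1)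
  have h3 : (Vq.comap (ALL_del φ)).index = Vq.relIndex V := Subgroup.index_comap _ _
  have hVqV : Vq ≤ V := by
    rintro _ ⟨v, hv, rfl⟩
    exact V.pow_mem hv q
  have h4 : Nat.card Vq * Vq.relIndex V = Nat.card V := by
    have := Subgroup.relIndex_mul_relIndex ⊥ Vq V bot_le hVqV
    rwa [Subgroup.relIndex_bot_left, Subgroup.relIndex_bot_left] at this
  -- the kernel of the power map on `V`
  set g := (powMonoidHom q : A →* A).comp V.subtype with hg
  have hgr : g.range = Vq := by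
    rw [hg, MonoidHom.range_eq_map, ← Subgroup.map_map, ← MonoidHom.range_eq_map, Subgroup.range_subtype]
  have h5 : Nat.card g.ker * Nat.card Vq = Nat.card V := by
    rw [← hgr, ← Subgroup.index_ker g]
    exact Subgroup.card_mul_index g.ker
  obtain ⟨w, hw⟩ := hw
  have h6 : q ≤ Nat.card g.ker := by
    obtain ⟨m, hm⟩ := (IsPGroup.iff_orderOf.1 hA) (ALL_del φ w)
    have hjm : j ≤ m := by
      by_contra hlt
      push Not at hlt
      apply hw
      rw [← orderOf_dvd_iff_pow_eq_one, hm]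
      exact pow_dvd_pow p (by omega)
    have hord : orderOf (ALL_del φ w ^ p ^ (m - j)) = q := by
      rw [orderOf_pow, hm, Nat.gcd_eq_right (pow_dvd_pow p (by omega)), Nat.pow_div (by omega) hp.pos, hq]
      congr 1
      omega
    set y : V := ⟨ALL_del φ w ^ p ^ (m - j), V.pow_mem ⟨w, rfl⟩ _⟩ with hy
    have hyo : orderOf y = q := by rw [hy, Subgroup.orderOf_mk, hord]
    have hyk : y ∈ g.ker := by
      rw [MonoidHom.mem_ker]
      show (ALL_del φ w ^ p ^ (m - j)) ^ q = 1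
      rw [← hord]
      exact pow_orderOf_eq_one _
    rw [← hyo, ← Nat.card_zpowers]
    exact Nat.card_le_card_of_injective _ (Subgroup.inclusion_injective
      ((Subgroup.zpowers_le).2 hyk))
  have h7 : q ≤ Vq.relIndex V := by
    have h8 : Nat.card g.ker = Vq.relIndex V := by
      have h9 : Nat.card Vq * Nat.card g.ker = Nat.card Vq * Vq.relIndex V := by
        rw [mul_comm, h5, h4]
      exact Nat.eq_of_mul_eq_mul_left Nat.card_pos h9
    rw [← h8]; exact h6
  have h8 : Nat.card (Vq.comap (ALL_del φ)) * Vq.relIndex V = Nat.card A := by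
    rw [← h3]; exact Subgroup.card_mul_index _
  calc q * Nat.card (K.comap (ALL_del φ)) ≤ Vq.relIndex V * Nat.card (Vq.comap (ALL_del φ)) :=
        Nat.mul_le_mul h7 h2
    _ = Nat.card A := by rw [mul_comm]; exact h8

/-- The number of elements which some `φ ∈ P`, `φ ≠ 1`, fixes modulo the `p ^ j`-th powers. -/
theorem ALL_cnt {p : ℕ} (hp : p.Prime) (hA : IsPGroup p A) (P : Subgroup (MulAut A))
    (hpP : ¬ p ∣ Nat.card P) (j : ℕ) (hj : 1 ≤ j)
    (hw : ∀ φ ∈ P, φ ≠ 1 → ∃ w, ALL_del φ w ^ p ^ (j - 1) ≠ 1) :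
    p ^ j * {u : A | ∃ φ ∈ P, φ ≠ 1 ∧ ∃ v : A, v ^ p ^ j = ALL_del φ u}.ncard ≤
      (Nat.card P - 1) * Nat.card A := by
  classical
  have : Finite (MulAut A) := Finite.of_injective (fun φ : MulAut A => (φ : A → A))
    (fun a b h => by ext x; exact congrFun h x)
  have : Fintype P := Fintype.ofFinite P
  have hcov : {u : A | ∃ φ ∈ P, φ ≠ 1 ∧ ∃ v : A, v ^ p ^ j = ALL_del φ u} ⊆
      ⋃ φ ∈ (Finset.univ.erase (1 : P)),
        (((powMonoidHom (p ^ j) : A →* A).range.comap (ALL_del (φ : MulAut A)) : Subgroup A) : Set A) := by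
    rintro u ⟨φ, hφ, h1, v, hv⟩
    rw [Set.mem_iUnion₂]
    refine ⟨⟨φ, hφ⟩, Finset.mem_erase.2 ⟨?_, Finset.mem_univ _⟩, v, hv⟩
    intro h
    exact h1 (congrArg Subtype.val h)
  calc p ^ j * {u : A | ∃ φ ∈ P, φ ≠ 1 ∧ ∃ v : A, v ^ p ^ j = ALL_del φ u}.ncard
      ≤ p ^ j * ∑ φ ∈ Finset.univ.erase (1 : P),
        (((powMonoidHom (p ^ j) : A →* A).range.comap (ALL_del (φ : MulAut A)) : Subgroup A) : Set A).ncard :=
        Nat.mul_le_mul_left _ ((Set.ncard_le_ncard hcov (Set.toFinite _)).trans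
          (Finset.set_ncard_biUnion_le _ _))
    _ = ∑ φ ∈ Finset.univ.erase (1 : P), p ^ j *
        (((powMonoidHom (p ^ j) : A →* A).range.comap (ALL_del (φ : MulAut A)) : Subgroup A) : Set A).ncard :=
        Finset.mul_sum _ _ _
    _ ≤ ∑ φ ∈ Finset.univ.erase (1 : P), Nat.card A := by
        refine Finset.sum_le_sum fun φ hφ => ?_
        have h1 : (φ : MulAut A) ≠ 1 := fun h => Finset.ne_of_mem_erase hφ (Subtype.ext h)
        have h2 : (φ : MulAut A) ^ Nat.card P = 1 := by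
          have h3 : φ ^ Nat.card P = 1 := pow_card_eq_one'
          have h4 := congrArg Subtype.val h3
          rwa [Subgroup.coe_pow, Subgroup.coe_one] at h4
        exact ALL_kix hp hA φ _ h2 hpP j hj (hw φ φ.2 h1)
    _ = (Nat.card P - 1) * Nat.card A := by
        rw [Finset.sum_const, Finset.card_erase_of_mem (Finset.mem_univ _), Finset.card_univ,
          smul_eq_mul, Nat.card_eq_fintype_card (α := P)]

/-- `|A[p ^ i]| ≤ |A[p]| ^ i`. -/
theorem ALL_om (p : ℕ) (i : ℕ) : Nat.card (powMonoidHom (p ^ i) : A →* A).ker ≤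
    Nat.card (powMonoidHom p : A →* A).ker ^ i := by
  induction i with
  | zero =>
    rw [pow_zero, pow_zero]
    have : (powMonoidHom 1 : A →* A).ker = ⊥ := by
      rw [eq_bot_iff]
      intro x hx
      rw [MonoidHom.mem_ker, powMonoidHom_apply, pow_one] at hx
      exact hx
    rw [this, Subgroup.card_bot]
  | succ n ih =>
    set f : (powMonoidHom (p ^ (n + 1)) : A →* A).ker →* A :=
      (powMonoidHom (p ^ n) : A →* A).comp (powMonoidHom (p ^ (n + 1)) : A →* A).ker.subtype with hf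
    have h1 : Nat.card f.ker * Nat.card f.range = Nat.card (powMonoidHom (p ^ (n + 1)) : A →* A).ker := by
      rw [← Subgroup.index_ker f]
      exact Subgroup.card_mul_index f.ker
    have h2 : Nat.card f.ker ≤ Nat.card (powMonoidHom (p ^ n) : A →* A).ker := by
      refine Nat.card_le_card_of_injective (fun x => ⟨((x : (powMonoidHom (p ^ (n + 1)) : A →* A).ker) : A), x.2⟩) ?_
      intro a b hab
      exact Subtype.ext (Subtype.ext
        (congrArg (fun x : (powMonoidHom (p ^ n) : A →* A).ker => (x : A)) hab))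
    have h3 : Nat.card f.range ≤ Nat.card (powMonoidHom p : A →* A).ker := by
      refine Nat.card_le_card_of_injective _ (Subgroup.inclusion_injective (?_ : f.range ≤ _))
      rintro _ ⟨x, rfl⟩
      rw [MonoidHom.mem_ker]
      show ((x : A) ^ p ^ n) ^ p = 1
      rw [← pow_mul, ← pow_succ]
      exact x.2
    calc Nat.card (powMonoidHom (p ^ (n + 1)) : A →* A).ker = Nat.card f.ker * Nat.card f.range := h1.symm
      _ ≤ Nat.card (powMonoidHom p : A →* A).ker ^ n * Nat.card (powMonoidHom p : A →* A).ker :=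
          Nat.mul_le_mul (h2.trans ih) h3
      _ = _ := (pow_succ _ _).symm

omit [Finite A] in
theorem ALL_idx (q : ℕ) : Nat.card (powMonoidHom q : A →* A).ker * Nat.card (powMonoidHom q : A →* A).range =
    Nat.card A := by
  rw [← Subgroup.index_ker]
  exact Subgroup.card_mul_index _

omit [Finite A] in
/-- All elements of order dividing `p ^ i` are `p`-th powers. -/
theorem ALL_div {p : ℕ} (j : ℕ) (h : ∀ v : A, v ^ p = 1 → ∃ z : A, z ^ p ^ j = v) :
    ∀ i ≤ j, ∀ x : A, x ^ p ^ i = 1 → ∃ y : A, y ^ p = x := by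
  intro i
  induction i with
  | zero =>
    intro _ x hx
    exact ⟨1, by rw [one_pow]; simpa using hx.symm⟩
  | succ n ih =>
    intro hn x hx
    obtain ⟨z, hz⟩ := h (x ^ p ^ n) (by rw [← pow_mul, ← pow_succ]; exact hx)
    have h1 : (x * (z ^ p ^ (j - n))⁻¹) ^ p ^ n = 1 := by
      rw [mul_pow, inv_pow, ← pow_mul, ← pow_add, Nat.sub_add_cancel (by omega), hz, mul_inv_cancel]
    obtain ⟨y, hy⟩ := ih (by omega) _ h1
    refine ⟨y * z ^ p ^ (j - n - 1), ?_⟩
    rw [mul_pow, hy, ← pow_mul, ← pow_succ, show j - n - 1 + 1 = j - n by omega, inv_mul_cancel_right]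

/-- The elements with `u ^ p ^ (j - 1)` a `p ^ j`-th power. -/
theorem ALL_z {p : ℕ} (j : ℕ) (hj : 1 ≤ j) (h : ∀ v : A, v ^ p = 1 → ∃ z : A, z ^ p ^ (j - 1) = v) :
    {u : A | ∃ v : A, v ^ p ^ j = u ^ p ^ (j - 1)}.ncard * Nat.card (powMonoidHom p : A →* A).ker ≤
      Nat.card A := by
  have h1 : {u : A | ∃ v : A, v ^ p ^ j = u ^ p ^ (j - 1)} ⊆ ((powMonoidHom p : A →* A).range : Set A) := by
    rintro u ⟨v, hv⟩
    obtain ⟨y, hy⟩ := ALL_div (j - 1) h (j - 1) le_rfl (u * (v ^ p)⁻¹) (by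
      rw [mul_pow, inv_pow, ← pow_mul, ← pow_succ', Nat.sub_add_cancel hj, hv, mul_inv_cancel])
    refine ⟨y * v, ?_⟩
    show (y * v) ^ p = u
    rw [mul_pow, hy, inv_mul_cancel_right]
  calc _ ≤ ((powMonoidHom p : A →* A).range : Set A).ncard * Nat.card (powMonoidHom p : A →* A).ker :=
        Nat.mul_le_mul_right _ (Set.ncard_le_ncard h1 (Set.toFinite _))
    _ = Nat.card A := by
        rw [mul_comm]
        exact ALL_idx p

/-- **(ALL)**, abstract form. -/
theorem ALL_abs {p : ℕ} (hp : p.Prime) (hA : IsPGroup p A) (P : Subgroup (MulAut A))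
    (hpP : ¬ p ∣ Nat.card P) (r j : ℕ) (hr : 1 ≤ r) (hj : 1 ≤ j)
    (hΩ : Nat.card (powMonoidHom p : A →* A).ker = p ^ r)
    (h : ∀ v : A, v ^ p = 1 → ∃ z : A, z ^ p ^ (j - 1) = v) (hn : Nat.card P ≤ p ^ j - p ^ (j - 1)) :
    (∃ u : A, (∀ φ ∈ P, φ ≠ 1 → ¬ ∃ v : A, v ^ p ^ j = ALL_del φ u) ∧
      ¬ ∃ v : A, v ^ p ^ j = u ^ p ^ (j - 1)) ∧
    Nat.card A ≤ p ^ (j * r) * Nat.card (powMonoidHom (p ^ j) : A →* A).range ∧
    Nat.card P * Nat.card A < p ^ (2 * (j / 2) + 2) * {u : A | ∀ φ ∈ P, φ u = u → φ = 1}.ncard := by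
  classical
  have : Finite (MulAut A) := Finite.of_injective (fun φ : MulAut A => (φ : A → A))
    (fun a b h => by ext x; exact congrFun h x)
  have hP1 : 1 ≤ Nat.card P := Nat.card_pos
  have hA1 : 1 ≤ Nat.card A := Nat.card_pos
  have hw : ∀ φ ∈ P, φ ≠ 1 → ∃ w, ALL_del φ w ^ p ^ (j - 1) ≠ 1 := by
    intro φ hφ h1
    have h2 : φ ^ Nat.card P = 1 := by
      have h3 : (⟨φ, hφ⟩ : P) ^ Nat.card P = 1 := pow_card_eq_one'
      have h4 := congrArg Subtype.val h3
      rwa [Subgroup.coe_pow, Subgroup.coe_one] at h4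
    exact ALL_wit hp hA φ h1 _ h2 hpP (j - 1) h
  have hcnt := ALL_cnt hp hA P hpP j hj hw
  have hz := ALL_z (A := A) (p := p) j hj h
  rw [hΩ] at hz
  set U := {u : A | ∃ φ ∈ P, φ ≠ 1 ∧ ∃ v : A, v ^ p ^ j = ALL_del φ u} with hU
  set Z := {u : A | ∃ v : A, v ^ p ^ j = u ^ p ^ (j - 1)} with hZ
  have hpj : p ^ j = p ^ (j - 1) * p := by rw [← pow_succ, Nat.sub_add_cancel hj]
  have hp1 : 1 ≤ p ^ (j - 1) := Nat.one_le_pow _ _ hp.pos
  have hp2 : 2 ≤ p := hp.two_le
  refine ⟨?_, ?_, ?_⟩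
  · by_contra hcon
    have hall : (Set.univ : Set A) ⊆ U ∪ Z := by
      intro u _
      by_contra hu
      rw [Set.mem_union, not_or] at hu
      apply hcon
      refine ⟨u, ?_, hu.2⟩
      intro φ hφ h1 h2
      exact hu.1 ⟨φ, hφ, h1, h2⟩
    have h1 : Nat.card A ≤ U.ncard + Z.ncard := by
      rw [← Set.ncard_univ]
      exact (Set.ncard_le_ncard hall (Set.toFinite _)).trans (Set.ncard_union_le _ _)
    have h2 : p ^ j * Z.ncard ≤ p ^ (j - 1) * Nat.card A := by
      rw [hpj, mul_assoc]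
      apply Nat.mul_le_mul_left
      refine le_trans ?_ hz
      rw [mul_comm]
      apply Nat.mul_le_mul_left
      calc p = p ^ 1 := (pow_one p).symm
        _ ≤ p ^ r := Nat.pow_le_pow_right hp.pos hr
    have h3 : p ^ j * Nat.card A ≤ (Nat.card P - 1) * Nat.card A + p ^ (j - 1) * Nat.card A := by
      calc p ^ j * Nat.card A ≤ p ^ j * (U.ncard + Z.ncard) := Nat.mul_le_mul_left _ h1
        _ = p ^ j * U.ncard + p ^ j * Z.ncard := mul_add _ _ _
        _ ≤ _ := add_le_add hcnt h2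
    rw [← add_mul] at h3
    have h4 := Nat.le_of_mul_le_mul_right h3 hA1
    omega
  · have h1 := ALL_om (A := A) p j
    rw [hΩ, ← pow_mul] at h1
    rw [← ALL_idx (A := A) (p ^ j), mul_comm j r]
    exact Nat.mul_le_mul_right _ h1
  · set S := {u : A | ∀ φ ∈ P, φ u = u → φ = 1} with hS
    have h1 : Nat.card A ≤ U.ncard + S.ncard := by
      have hall : (Set.univ : Set A) ⊆ U ∪ S := by
        intro u _
        by_contra hu
        rw [Set.mem_union, not_or] at hu
        apply hu.2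
        intro φ hφ h1
        by_contra h2
        apply hu.1
        refine ⟨φ, hφ, h2, 1, ?_⟩
        rw [one_pow, ALL_del_apply, h1, inv_mul_cancel]
      rw [← Set.ncard_univ]
      exact (Set.ncard_le_ncard hall (Set.toFinite _)).trans (Set.ncard_union_le _ _)
    have h2 : p ^ j * Nat.card A ≤ (Nat.card P - 1) * Nat.card A + p ^ j * S.ncard := by
      calc p ^ j * Nat.card A ≤ p ^ j * (U.ncard + S.ncard) := Nat.mul_le_mul_left _ h1
        _ = p ^ j * U.ncard + p ^ j * S.ncard := mul_add _ _ _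
        _ ≤ _ := add_le_add hcnt le_rfl
    have h3 : (p ^ (j - 1) + 1) * Nat.card A ≤ p ^ j * S.ncard := by
      have h4 : (p ^ (j - 1) + 1) * Nat.card A + (Nat.card P - 1) * Nat.card A ≤ p ^ j * Nat.card A := by
        rw [← add_mul]
        apply Nat.mul_le_mul_right
        omega
      omega
    have h5 : p ^ (j + 1) ≤ p ^ (2 * (j / 2) + 2) := Nat.pow_le_pow_right hp.pos (by omega)
    calc Nat.card P * Nat.card A < (p * (p ^ (j - 1) + 1)) * Nat.card A := by
          apply Nat.mul_lt_mul_of_pos_right _ hA1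
          have : p * (p ^ (j - 1) + 1) = p ^ j + p := by rw [hpj]; ring
          omega
      _ = p * ((p ^ (j - 1) + 1) * Nat.card A) := by ring
      _ ≤ p * (p ^ j * S.ncard) := Nat.mul_le_mul_left _ h3
      _ = p ^ (j + 1) * S.ncard := by rw [pow_succ]; ring
      _ ≤ _ := Nat.mul_le_mul_right _ h5

end ALLA

end Pool.Agent.LE
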