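import Pool.Agent.helper12.LE.StmL
import Pool.Agent.helper95.LE.ALLA

/-!
# Project LE (MP_baa4d7_al): from coprime actions on `D` to the hypotheses `HLE`, `HWE`, `HZE`
-/

set_option autoImplicit false

namespace Pool.Agent.LE

open Pool.Agent.helper58.DC Pool.Agent.DI Pool.Agent.GR Pool.Agent.OB Pool.Agent.DR Pool.Agent.FI Pool.Agent.FI3 Pool.Agent.FI4 Pool.Agent.FIL

section ALT

variable {G : Type} [Group G]

/-- The abelian group `D`. -/
abbrev ALT_inst (D : Subgroup G) (com : ∀ c ∈ D, ∀ d ∈ D, c * d = d * c) : CommGroup D :=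
  { (inferInstance : Group D) with mul_comm := fun a b => Subtype.ext (com a a.2 b b.2) }

/-- The action of `T` on `D`. -/
def ALT_rho (D T : Subgroup G) (nor : T ≤ nz D) : T →* MulAut D where
  toFun t :=
    { toFun := fun d => ⟨(t : G) * d * (t : G)⁻¹, (Subgroup.mem_normalizer_iff.1 (nor t.2) d).1 d.2⟩
      invFun := fun d => ⟨(t : G)⁻¹ * d * (t : G), by
        have h := (Subgroup.mem_normalizer_iff.1 (nor (T.inv_mem t.2)) d).1 d.2
        rwa [inv_inv] at h⟩
      left_inv := fun d => Subtype.ext (by show (t : G)⁻¹ * ((t : G) * d * (t : G)⁻¹) * t = d; group)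
      right_inv := fun d => Subtype.ext (by show (t : G) * ((t : G)⁻¹ * d * t) * (t : G)⁻¹ = d; group)
      map_mul' := fun a b => Subtype.ext (by
        show (t : G) * ((a : G) * b) * (t : G)⁻¹ = (t : G) * a * (t : G)⁻¹ * ((t : G) * b * (t : G)⁻¹)
        group) }
  map_one' := by
    ext d
    show (1 : G) * d * (1 : G)⁻¹ = d
    group
  map_mul' a b := by
    ext d
    show ((a : G) * b) * d * ((a : G) * b)⁻¹ = (a : G) * ((b : G) * d * (b : G)⁻¹) * (a : G)⁻¹
    group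

theorem ALT_rho_apply (D T : Subgroup G) (nor : T ≤ nz D) (t : T) (d : D) :
    ((ALT_rho D T nor t d : D) : G) = (t : G) * d * (t : G)⁻¹ := rfl

theorem ALT_ker (D T : Subgroup G) (nor : T ≤ nz D) (t : T) :
    ALT_rho D T nor t = 1 ↔ (t : G) ∈ cz D := by
  constructor
  · intro h
    show (t : G) ∈ Subgroup.centralizer (D : Set G)
    rw [Subgroup.mem_centralizer_iff]
    intro d hd
    have h1 := congrArg (fun φ : MulAut D => ((φ ⟨d, hd⟩ : D) : G)) h
    change (t : G) * d * (t : G)⁻¹ = d at h1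
    calc d * t = ((t : G) * d * (t : G)⁻¹) * t := by rw [h1]
      _ = t * d := by group
  · intro h
    ext d
    show (t : G) * d * (t : G)⁻¹ = d
    have h1 : (d : G) * t = t * d := (Subgroup.mem_centralizer_iff.1 h) d d.2
    rw [← h1]; group

theorem ALT_card (D T : Subgroup G) (nor : T ≤ nz D) :
    Nat.card (ALT_rho D T nor).range = (cz D).relIndex T := by
  rw [← Subgroup.index_ker]
  have : (ALT_rho D T nor).ker = (cz D).subgroupOf T := by
    ext t
    rw [MonoidHom.mem_ker, ALT_ker, Subgroup.mem_subgroupOf]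
  rw [this]
  rfl

variable [Finite G]

/-- `HLE` from the action. -/
theorem ALT_hle {p : ℕ} {D T : Subgroup G} (hG : GDT p D T) (j g c h : ℕ) (hj : h + 1 ≤ j)
    (hu : letI := ALT_inst D hG.com
      ∃ u : D, (∀ φ ∈ (ALT_rho D T hG.nor).range, φ ≠ 1 → ¬ ∃ v : D, v ^ p ^ j = ALL_del φ u) ∧
        (g = 0 ∨ ¬ ∃ v : D, v ^ p ^ j = u ^ p ^ g))
    (hidx : letI := ALT_inst D hG.com
      Nat.card D ≤ p ^ (c + g) * Nat.card (powMonoidHom (p ^ j) : D →* D).range)
    (hreg : Nat.card (ALT_rho D T hG.nor).range * Nat.card D < p ^ (2 * h + 2) *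
      {u : D | ∀ φ ∈ (ALT_rho D T hG.nor).range, φ u = u → φ = 1}.ncard) :
    HLE p c h G D T := by
  letI := ALT_inst D hG.com
  obtain ⟨u, hu1, hu2⟩ := hu
  refine ⟨⟨g, (powMonoidHom (p ^ j) : D →* D).range.map D.subtype, u, ?_, ?_⟩, ?_⟩
  · refine ⟨Subgroup.map_subtype_le _, ?_, ?_, u.2, ?_, ?_⟩
    · rintro _ ⟨_, ⟨v, rfl⟩, rfl⟩
      refine ⟨(v : G) ^ p ^ (j - h - 1), D.pow_mem v.2 _, ?_⟩
      rw [← pow_mul, ← pow_add]
      show _ = ((v ^ p ^ j : D) : G)
      rw [Subgroup.coe_pow]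
      congr 2
      omega
    · rintro t ht _ ⟨_, ⟨v, rfl⟩, rfl⟩
      refine ⟨(ALT_rho D T hG.nor ⟨t, ht⟩ v) ^ p ^ j, ⟨ALT_rho D T hG.nor ⟨t, ht⟩ v, rfl⟩, ?_⟩
      rw [← map_pow]
      rfl
    · rintro _ ⟨_, ⟨v, rfl⟩, rfl⟩
      refine ⟨D.mul_mem u.2 (Subtype.coe_prop _), ?_⟩
      intro t ht hc
      by_contra hcz
      have h1 : ALT_rho D T hG.nor ⟨t, ht⟩ ≠ 1 := fun h0 => hcz ((ALT_ker D T hG.nor ⟨t, ht⟩).1 h0)
      refine hu1 _ ⟨⟨t, ht⟩, rfl⟩ h1 ?_
      refine ⟨(ALL_del (ALT_rho D T hG.nor ⟨t, ht⟩) v)⁻¹, ?_⟩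
      have h2 : ALL_del (ALT_rho D T hG.nor ⟨t, ht⟩) (u * v ^ p ^ j) = 1 := by
        rw [ALL_del_apply]
        have h3 : ALT_rho D T hG.nor ⟨t, ht⟩ (u * v ^ p ^ j) = u * v ^ p ^ j := by
          apply Subtype.ext
          rw [ALT_rho_apply]
          change t * (((u : D) : G) * ((v ^ p ^ j : D) : G)) * t⁻¹ = _
          change t * (((u : D) : G) * ((v ^ p ^ j : D) : G)) = (((u : D) : G) * ((v ^ p ^ j : D) : G)) * t at hc
          rw [hc, mul_inv_cancel_right]
          rfl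
        rw [h3, inv_mul_cancel]
      rw [map_mul, map_pow] at h2
      rw [inv_pow]
      exact (eq_inv_of_mul_eq_one_left h2).symm
    · rcases hu2 with h0 | h0
      · exact Or.inl h0
      · right
        rintro ⟨_, ⟨v, rfl⟩, hv⟩
        apply h0
        refine ⟨v, Subtype.ext ?_⟩
        exact hv
  · have h1 : Nat.card ((powMonoidHom (p ^ j) : D →* D).range.map D.subtype) =
        Nat.card (powMonoidHom (p ^ j) : D →* D).range :=
      (Nat.card_congr ((powMonoidHom (p ^ j) : D →* D).range.equivMapOfInjective D.subtype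
        D.subtype_injective).toEquiv).symm
    rw [h1]
    exact hidx
  · rw [ALT_card] at hreg
    refine lt_of_lt_of_le hreg (Nat.mul_le_mul_left _ ?_)
    have h1 : (fun u : D => (u : G)) '' {u : D | ∀ φ ∈ (ALT_rho D T hG.nor).range, φ u = u → φ = 1} ⊆
        RGT D T := by
      rintro _ ⟨u, hu, rfl⟩
      refine ⟨u.2, ?_⟩
      intro t ht htu
      rw [← ALT_ker D T hG.nor ⟨t, ht⟩]
      refine hu _ ⟨⟨t, ht⟩, rfl⟩ ?_
      apply Subtype.ext
      rw [ALT_rho_apply]
      change t * (u : G) * t⁻¹ = u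
      rw [htu, mul_inv_cancel_right]
    rw [← Set.ncard_image_of_injective _ Subtype.val_injective]
    exact Set.ncard_le_ncard h1 (Set.toFinite _)

end ALT

end Pool.Agent.LE
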