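import Pool.Agent.helper95.LE.ALLA

/-!
# Project LE (MP_baa4d7_al): the number of regular elements, induction over the levels `A ^ (p ^ m)`
-/

set_option autoImplicit false

namespace Pool.Agent.LE

section ALLB

variable {A : Type} [CommGroup A]

/-- The elements `u` such that no `φ ∈ P`, `φ ≠ 1`, fixes `u` modulo the `q`-th powers. -/
def ALL_R (P : Subgroup (MulAut A)) (q : ℕ) : Set A :=
  {u | ∀ φ ∈ P, φ ≠ 1 → ¬ ∃ v : A, v ^ q = ALL_del φ u}

/-- The elements fixed by `P` modulo the `p`-th powers. -/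
def ALL_F (p : ℕ) (P : Subgroup (MulAut A)) : Subgroup A where
  carrier := {u | ∀ φ ∈ P, ∃ v : A, v ^ p = ALL_del φ u}
  one_mem' := fun φ _ => ⟨1, by simp⟩
  mul_mem' := by
    intro a b ha hb φ hφ
    obtain ⟨v, hv⟩ := ha φ hφ
    obtain ⟨w, hw⟩ := hb φ hφ
    exact ⟨v * w, by rw [mul_pow, hv, hw, map_mul]⟩
  inv_mem' := by
    intro a ha φ hφ
    obtain ⟨v, hv⟩ := ha φ hφ
    exact ⟨v⁻¹, by rw [inv_pow, hv, map_inv]⟩

/-- The stabiliser in `P` of `u` modulo the `p`-th powers. -/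
def ALL_S (p : ℕ) (P : Subgroup (MulAut A)) (u : A) : Subgroup (MulAut A) where
  carrier := {φ | φ ∈ P ∧ ∃ v : A, v ^ p = ALL_del φ u}
  one_mem' := ⟨P.one_mem, 1, by rw [ALL_del_apply]; simp⟩
  mul_mem' := by
    rintro a b ⟨ha, v, hv⟩ ⟨hb, w, hw⟩
    refine ⟨P.mul_mem ha hb, v * a w, ?_⟩
    rw [mul_pow, hv, ← map_pow, hw, ALL_del_apply, ALL_del_apply, ALL_del_apply, map_mul, map_inv,
      MulAut.mul_apply, mul_assoc, mul_inv_cancel_left]
  inv_mem' := by
    rintro a ⟨ha, v, hv⟩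
    refine ⟨P.inv_mem ha, (a⁻¹ v)⁻¹, ?_⟩
    rw [inv_pow, ← map_pow, hv, ALL_del_apply, ALL_del_apply, map_mul, map_inv, MulAut.inv_apply_self,
      mul_inv, inv_inv, mul_comm]

theorem ALL_S_le (p : ℕ) (P : Subgroup (MulAut A)) (u : A) : ALL_S p P u ≤ P := fun _ h => h.1

variable [Finite A]

theorem ALL_finMulAut : Finite (MulAut A) := Finite.of_injective (fun φ : MulAut A => (φ : A → A))
    (fun a b h => by ext x; exact congrFun h x)

/-- A fixed point in a coset of the `p`-th powers. -/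
theorem ALL_fix {p : ℕ} (hp : p.Prime) (hA : IsPGroup p A) (S : Subgroup (MulAut A))
    (hpS : ¬ p ∣ Nat.card S) (u : A) (hu : ∀ φ ∈ S, ∃ v : A, v ^ p = ALL_del φ u) :
    ∃ w y : A, u = w * y ^ p ∧ ∀ φ ∈ S, φ w = w := by
  classical
  have hfin := ALL_finMulAut (A := A)
  have : Fintype S := Fintype.ofFinite S
  have hpf : Fact p.Prime := ⟨hp⟩
  set N : A := ∏ φ : S, (φ : MulAut A) u with hN
  have hfixN : ∀ φ ∈ S, φ N = N := by
    intro φ hφ
    rw [hN, map_prod]
    refine Fintype.prod_equiv (Equiv.mulLeft (⟨φ, hφ⟩ : S)) _ _ ?_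
    intro ψ
    rfl
  -- `N = u ^ |S| * p`-th power
  have h1 : ∃ y : A, N = u ^ Nat.card S * y ^ p := by
    choose v hv using hu
    refine ⟨∏ φ : S, v φ φ.2, ?_⟩
    rw [← Finset.prod_pow, Nat.card_eq_fintype_card, ← Finset.card_univ, ← Finset.prod_const,
      ← Finset.prod_mul_distrib, hN]
    refine Finset.prod_congr rfl fun φ _ => ?_
    rw [hv, ALL_del_apply, mul_inv_cancel_left]
  obtain ⟨y, hy⟩ := h1
  -- choose `f` with `|S| f ≡ 1` modulo the order
  obtain ⟨k, hk⟩ := IsPGroup.iff_card.1 hA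
  have hcop : Nat.Coprime (Nat.card S) (p ^ (k + 1)) :=
    Nat.Coprime.pow_right _ (hp.coprime_iff_not_dvd.2 hpS).symm
  obtain ⟨f, -, hf⟩ := Nat.exists_mul_mod_eq_one_of_coprime hcop
    (Nat.one_lt_pow (by omega) hp.one_lt)
  have hf1 : ∃ g, Nat.card S * f = 1 + p ^ (k + 1) * g := by
    refine ⟨Nat.card S * f / p ^ (k + 1), ?_⟩
    have := Nat.mod_add_div (Nat.card S * f) (p ^ (k + 1))
    rw [hf] at this
    exact this.symm
  obtain ⟨g, hg⟩ := hf1
  refine ⟨N ^ f, (y ^ f)⁻¹, ?_, ?_⟩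
  · rw [hy, mul_pow, ← pow_mul, hg, pow_add, pow_one, pow_mul, pow_succ, pow_mul]
    have h2 : ∀ x : A, x ^ p ^ k = 1 := by
      intro x
      rw [← hk]
      exact pow_card_eq_one'
    rw [h2, one_pow, one_pow, mul_one, inv_pow, ← pow_mul, ← pow_mul, mul_comm p f,
      mul_inv_cancel_right]
  · intro φ hφ
    rw [map_pow, hfixN φ hφ]

omit [Finite A] in
theorem ALL_cop {p : ℕ} (hp : p.Prime) (hA : IsPGroup p A) {e : ℕ} (hpe : ¬ p ∣ e) {a : A} (ha : a ^ e = 1) :
    a = 1 := by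
  obtain ⟨k, hk⟩ := hA a
  have hcop : Nat.Coprime e (p ^ k) := Nat.Coprime.pow_right _ (hp.coprime_iff_not_dvd.2 hpe).symm
  have h1 : orderOf a ∣ Nat.gcd e (p ^ k) :=
    Nat.dvd_gcd (orderOf_dvd_of_pow_eq_one ha) (orderOf_dvd_of_pow_eq_one hk)
  rw [hcop.gcd_eq_one, Nat.dvd_one, orderOf_eq_one_iff] at h1
  exact h1

/-- A `p'`-automorphism which is trivial modulo the `p`-th powers is trivial. -/
theorem ALL_triv {p : ℕ} (hp : p.Prime) (hA : IsPGroup p A) (φ : MulAut A) (e : ℕ)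
    (he : φ ^ e = 1) (hpe : ¬ p ∣ e) (h : ∀ u : A, ∃ v : A, v ^ p = ALL_del φ u) : φ = 1 := by
  have hpf : Fact p.Prime := ⟨hp⟩
  have key : ∀ N : ℕ, (∀ u, ALL_del φ u ^ p ^ N = 1) → ∀ u, ALL_del φ u = 1 := by
    intro N
    induction N with
    | zero => intro h1 u; simpa using h1 u
    | succ n ih =>
      intro h1
      apply ih
      intro u
      obtain ⟨v, hv⟩ := h u
      obtain ⟨y, hy⟩ := ALL_core φ e he v u p hv
      rw [hv] at hy
      apply ALL_cop hp hA hpe
      rw [← pow_mul, mul_comm, pow_mul, hy, ← pow_mul, ← pow_succ']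
      exact h1 y
  obtain ⟨k, hk⟩ := IsPGroup.iff_card.1 hA
  by_contra hφ
  obtain ⟨x, hx⟩ := ALL_del_ne hφ
  apply hx
  refine key k ?_ x
  intro u
  rw [← hk]
  exact pow_card_eq_one'

/-- numbers: `c d = ∏ (p ^ (i + 1) - 1)`. -/
def ALL_c (p d : ℕ) : ℕ := ∏ i ∈ Finset.range d, (p ^ (i + 1) - 1)

/-- numbers: `e d = ∏ p ^ (i + 1)`. -/
def ALL_e (p d : ℕ) : ℕ := ∏ i ∈ Finset.range d, p ^ (i + 1)

theorem ALL_ce (p a b : ℕ) (h : a ≤ b) : ALL_c p b * ALL_e p a ≤ ALL_c p a * ALL_e p b := by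
  induction b, h using Nat.le_induction with
  | base => exact le_rfl
  | succ n _ ih =>
    rw [ALL_c, Finset.prod_range_succ, ALL_e, ALL_e, Finset.prod_range_succ]
    rw [ALL_c, ALL_e, ALL_c, ALL_e] at ih
    rw [ALL_c]
    calc (∏ i ∈ Finset.range n, (p ^ (i + 1) - 1)) * (p ^ (n + 1) - 1) * ∏ i ∈ Finset.range a, p ^ (i + 1)
        = (∏ i ∈ Finset.range n, (p ^ (i + 1) - 1)) * (∏ i ∈ Finset.range a, p ^ (i + 1)) * (p ^ (n + 1) - 1) := by ring
      _ ≤ (∏ i ∈ Finset.range a, (p ^ (i + 1) - 1)) * (∏ i ∈ Finset.range n, p ^ (i + 1)) * p ^ (n + 1) :=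
          Nat.mul_le_mul ih (Nat.sub_le _ _)
      _ = _ := by ring

omit [Finite A] in
theorem ALL_R_top (P : Subgroup (MulAut A)) (h : P = ⊥) (q : ℕ) : ALL_R P q = Set.univ := by
  rw [Set.eq_univ_iff_forall]
  intro u φ hφ h1
  rw [h, Subgroup.mem_bot] at hφ
  exact absurd hφ h1

/-- Fibres of `x ↦ w x ^ p`. -/
theorem ALL_fib (p : ℕ) (w : A) (S T : Set A) (h : ∀ x ∈ S, w * x ^ p ∈ T) :
    S.ncard ≤ Nat.card (powMonoidHom p : A →* A).ker * T.ncard := by
  classical
  have hsec : ∀ t : A, ∃ x₀ : A, (∃ x, w * x ^ p = t) → w * x₀ ^ p = t := by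
    intro t
    by_cases ht : ∃ x, w * x ^ p = t
    · obtain ⟨x, hx⟩ := ht
      exact ⟨x, fun _ => hx⟩
    · exact ⟨1, fun h => absurd h ht⟩
  choose x₀ hx₀ using hsec
  have hk : ∀ x : A, x * (x₀ (w * x ^ p))⁻¹ ∈ (powMonoidHom p : A →* A).ker := by
    intro x
    rw [MonoidHom.mem_ker, powMonoidHom_apply, mul_pow, inv_pow]
    have h1 := hx₀ (w * x ^ p) ⟨x, rfl⟩
    rw [mul_left_cancel h1, mul_inv_cancel]
  rw [← Nat.card_coe_set_eq, ← Nat.card_coe_set_eq, ← Nat.card_prod]
  refine Nat.card_le_card_of_injective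
    (fun x : S => ((⟨x * (x₀ (w * (x : A) ^ p))⁻¹, hk x⟩ : (powMonoidHom p : A →* A).ker),
      (⟨w * (x : A) ^ p, h x x.2⟩ : T))) ?_
  intro a b hab
  rw [Prod.mk.injEq] at hab
  have h1 : w * (a : A) ^ p = w * (b : A) ^ p := congrArg Subtype.val hab.2
  have h2 : (a : A) * (x₀ (w * (a : A) ^ p))⁻¹ = b * (x₀ (w * (b : A) ^ p))⁻¹ := congrArg Subtype.val hab.1
  rw [h1] at h2
  exact Subtype.ext (mul_right_cancel h2)

/-- **The count.** -/
theorem ALL_lev {p : ℕ} (hp : p.Prime) (hA : IsPGroup p A) : ∀ (m : ℕ),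
    (∀ v : A, v ^ p = 1 → ∃ z : A, z ^ p ^ (m - 1) = v) → ∀ P : Subgroup (MulAut A),
    ¬ p ∣ Nat.card P → ∀ d ≤ m, (ALL_F p P).index = p ^ d →
    Nat.card A * ALL_c p d ≤ ALL_e p d * (ALL_R P (p ^ m)).ncard := by
  classical
  have hfin := ALL_finMulAut (A := A)
  have hpf : Fact p.Prime := ⟨hp⟩
  -- the case `d = 0`
  have h0 : ∀ P : Subgroup (MulAut A), ¬ p ∣ Nat.card P → (ALL_F p P).index = 1 → P = ⊥ := by
    intro P hpP hi
    rw [Subgroup.index_eq_one] at hi
    rw [eq_bot_iff]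
    intro φ hφ
    rw [Subgroup.mem_bot]
    have h2 : φ ^ Nat.card P = 1 := by
      have h3 : (⟨φ, hφ⟩ : P) ^ Nat.card P = 1 := pow_card_eq_one'
      have h4 := congrArg Subtype.val h3
      rwa [Subgroup.coe_pow, Subgroup.coe_one] at h4
    refine ALL_triv hp hA φ _ h2 hpP ?_
    intro u
    have hu : u ∈ ALL_F p P := by rw [hi]; exact Subgroup.mem_top u
    exact hu φ hφ
  intro m
  induction m with
  | zero =>
    intro _ P hpP d hd hi
    have hd0 : d = 0 := by omega
    subst hd0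
    rw [pow_zero] at hi
    rw [ALL_R_top P (h0 P hpP hi), Set.ncard_univ]
    simp [ALL_c, ALL_e]
  | succ m ih =>
    intro hΩ P hpP d hd hi
    rcases Nat.eq_zero_or_pos d with hd0 | hd0
    · subst hd0
      rw [pow_zero] at hi
      rw [ALL_R_top P (h0 P hpP hi), Set.ncard_univ]
      simp [ALL_c, ALL_e]
    obtain ⟨d', rfl⟩ := Nat.exists_eq_succ_of_ne_zero hd0.ne'
    rw [Nat.succ_eq_add_one] at *
    have hΩm : ∀ v : A, v ^ p = 1 → ∃ z : A, z ^ p ^ (m - 1) = v := by
      intro v hv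
      obtain ⟨z, hz⟩ := hΩ v hv
      rcases Nat.eq_zero_or_pos m with hm | hm
      · subst hm; exact ⟨z, by simpa using hz⟩
      · refine ⟨z ^ p, ?_⟩
        rw [← pow_mul, ← pow_succ', Nat.sub_add_cancel hm]
        simpa using hz
    -- divisibility of the orders
    have hSp : ∀ u : A, ¬ p ∣ Nat.card (ALL_S p P u) := by
      intro u h
      exact hpP (h.trans (Subgroup.card_dvd_of_le (ALL_S_le p P u)))
    -- (1) the local inequality
    have h1 : ∀ u : A, (ALL_R (ALL_S p P u) (p ^ m)).ncard ≤ Nat.card (powMonoidHom p : A →* A).ker *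
        {x : A | x ∈ ALL_R P (p ^ (m + 1)) ∧ ∃ y : A, x = u * y ^ p}.ncard := by
      intro u
      obtain ⟨w, y, hwy, hw⟩ := ALL_fix hp hA (ALL_S p P u) (hSp u) u (fun φ hφ => hφ.2)
      refine ALL_fib p w _ _ ?_
      intro x hx
      refine ⟨?_, x * y⁻¹, ?_⟩
      · rintro φ hφ hφ1 ⟨v, hv⟩
        rw [map_mul, map_pow] at hv
        have hS : φ ∈ ALL_S p P u := by
          refine ⟨hφ, v ^ p ^ m * (ALL_del φ x)⁻¹ * ALL_del φ y, ?_⟩
          rw [hwy, map_mul, map_pow, mul_pow, mul_pow, ← pow_mul, ← pow_succ, hv, inv_pow,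
            mul_inv_cancel_right]
        have hw1 : ALL_del φ w = 1 := by
          rw [ALL_del_apply, hw φ hS, inv_mul_cancel]
        rw [hw1, one_mul] at hv
        obtain ⟨z, hz⟩ := hΩ (ALL_del φ x * (v ^ p ^ m)⁻¹) (by
          rw [mul_pow, inv_pow, ← pow_mul, ← pow_succ, hv, mul_inv_cancel])
        rw [Nat.add_sub_cancel] at hz
        refine hx φ hS hφ1 ⟨z * v, ?_⟩
        rw [mul_pow, hz, inv_mul_cancel_right]
      · rw [hwy, mul_pow, inv_pow, mul_assoc, mul_comm (x ^ p), mul_inv_cancel_left]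
    have : Fintype A := Fintype.ofFinite A
    -- (2) the double count
    have h2 : ∑ u : A, {x : A | x ∈ ALL_R P (p ^ (m + 1)) ∧ ∃ y : A, x = u * y ^ p}.ncard ≤
        Nat.card (powMonoidHom p : A →* A).range * (ALL_R P (p ^ (m + 1))).ncard := by
      have e1 : ∀ u : A, {x : A | x ∈ ALL_R P (p ^ (m + 1)) ∧ ∃ y : A, x = u * y ^ p}.ncard =
          ((ALL_R P (p ^ (m + 1))).toFinset.filter (fun x => ∃ y : A, x = u * y ^ p)).card := by
        intro u
        rw [← Set.ncard_coe_finset]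
        congr 1
        ext x
        simp
      have e2 : (ALL_R P (p ^ (m + 1))).ncard = (ALL_R P (p ^ (m + 1))).toFinset.card :=
        Set.ncard_eq_toFinset_card' _
      rw [Finset.sum_congr rfl fun u _ => e1 u, e2]
      have e3 := Finset.sum_card_bipartiteAbove_eq_sum_card_bipartiteBelow
        (s := (Finset.univ : Finset A)) (t := (ALL_R P (p ^ (m + 1))).toFinset)
        (fun u x : A => ∃ y : A, x = u * y ^ p)
      unfold Finset.bipartiteAbove Finset.bipartiteBelow at e3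
      rw [e3, mul_comm, ← smul_eq_mul, ← Finset.sum_const]
      refine Finset.sum_le_sum fun x _ => ?_
      have e4 : (Finset.univ.filter (fun u : A => ∃ y : A, x = u * y ^ p)) ⊆
          (Finset.univ : Finset (powMonoidHom p : A →* A).range).image
            (fun z : (powMonoidHom p : A →* A).range => x * (z : A)⁻¹) := by
        intro u hu
        rw [Finset.mem_filter] at hu
        obtain ⟨-, y, hy⟩ := hu
        rw [Finset.mem_image]
        refine ⟨⟨y ^ p, y, rfl⟩, Finset.mem_univ _, ?_⟩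
        show x * (y ^ p)⁻¹ = u
        rw [hy, mul_inv_cancel_right]
      refine (Finset.card_le_card e4).trans (Finset.card_image_le.trans ?_)
      rw [Finset.card_univ, Nat.card_eq_fintype_card]
    -- (3) the induction hypothesis
    have h3 : ∀ u ∉ ALL_F p P, Nat.card A * ALL_c p d' ≤
        ALL_e p d' * (ALL_R (ALL_S p P u) (p ^ m)).ncard := by
      intro u hu
      have hle : ALL_F p P ≤ ALL_F p (ALL_S p P u) := fun x hx φ hφ => hx φ hφ.1
      have hlt : (ALL_F p P).relIndex (ALL_F p (ALL_S p P u)) ≠ 1 := by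
        intro h
        rw [Subgroup.relIndex_eq_one] at h
        exact hu (h fun φ hφ => hφ.2)
      have hmul := Subgroup.relIndex_mul_index hle
      obtain ⟨a, ha⟩ := (Nat.dvd_prime_pow hp).1 (Dvd.intro _ hmul |>.trans (dvd_of_eq hi))
      obtain ⟨b, hb⟩ := (Nat.dvd_prime_pow hp).1 (Dvd.intro_left _ hmul |>.trans (dvd_of_eq hi))
      have hab : a + b = d' + 1 := by
        rw [ha.2, hb.2, ← pow_add, hi] at hmul
        exact Nat.pow_right_injective hp.two_le hmul
      have ha0 : a ≠ 0 := by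
        intro h
        rw [h, pow_zero] at ha
        exact hlt ha.2
      have h4 := ih hΩm (ALL_S p P u) (hSp u) b (by omega) hb.2
      have h5 := ALL_ce p b d' (by omega)
      have h6 : 0 < ALL_e p b := Finset.prod_pos fun i _ => pow_pos hp.pos _
      refine Nat.le_of_mul_le_mul_left ?_ h6
      calc ALL_e p b * (Nat.card A * ALL_c p d') = Nat.card A * (ALL_c p d' * ALL_e p b) := by ring
        _ ≤ Nat.card A * (ALL_c p b * ALL_e p d') := Nat.mul_le_mul_left _ h5
        _ = (Nat.card A * ALL_c p b) * ALL_e p d' := by ring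
        _ ≤ (ALL_e p b * (ALL_R (ALL_S p P u) (p ^ m)).ncard) * ALL_e p d' := Nat.mul_le_mul_right _ h4
        _ = _ := by ring
    -- (4) assembly
    have h4 : ∑ u ∈ Finset.univ.filter (fun u : A => u ∉ ALL_F p P), (Nat.card A * ALL_c p d') ≤
        ALL_e p d' * (Nat.card A * (ALL_R P (p ^ (m + 1))).ncard) := by
      calc ∑ u ∈ Finset.univ.filter (fun u : A => u ∉ ALL_F p P), (Nat.card A * ALL_c p d')
          ≤ ∑ u ∈ Finset.univ.filter (fun u : A => u ∉ ALL_F p P),
            ALL_e p d' * (ALL_R (ALL_S p P u) (p ^ m)).ncard :=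
            Finset.sum_le_sum fun u hu => h3 u (Finset.mem_filter.1 hu).2
        _ ≤ ∑ u : A, ALL_e p d' * (ALL_R (ALL_S p P u) (p ^ m)).ncard :=
            Finset.sum_le_univ_sum_of_nonneg fun _ => Nat.zero_le _
        _ ≤ ∑ u : A, ALL_e p d' * (Nat.card (powMonoidHom p : A →* A).ker *
            {x : A | x ∈ ALL_R P (p ^ (m + 1)) ∧ ∃ y : A, x = u * y ^ p}.ncard) :=
            Finset.sum_le_sum fun u _ => Nat.mul_le_mul_left _ (h1 u)
        _ = ALL_e p d' * (Nat.card (powMonoidHom p : A →* A).ker *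
            ∑ u : A, {x : A | x ∈ ALL_R P (p ^ (m + 1)) ∧ ∃ y : A, x = u * y ^ p}.ncard) := by
            rw [← Finset.mul_sum, ← Finset.mul_sum]
        _ ≤ ALL_e p d' * (Nat.card (powMonoidHom p : A →* A).ker *
            (Nat.card (powMonoidHom p : A →* A).range * (ALL_R P (p ^ (m + 1))).ncard)) :=
            Nat.mul_le_mul_left _ (Nat.mul_le_mul_left _ h2)
        _ = _ := by rw [← mul_assoc (Nat.card (powMonoidHom p : A →* A).ker), ALL_idx]
    rw [Finset.sum_const, smul_eq_mul] at h4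
    have hApos : 0 < Nat.card A := Nat.card_pos
    have h5 : (Finset.univ.filter (fun u : A => u ∉ ALL_F p P)).card * ALL_c p d' ≤
        ALL_e p d' * (ALL_R P (p ^ (m + 1))).ncard := by
      refine Nat.le_of_mul_le_mul_left ?_ hApos
      calc _ = (Finset.univ.filter (fun u : A => u ∉ ALL_F p P)).card * (Nat.card A * ALL_c p d') := by ring
        _ ≤ _ := h4
        _ = _ := by ring
    have h6 : (Finset.univ.filter (fun u : A => u ∉ ALL_F p P)).card + Nat.card (ALL_F p P) = Nat.card A := by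
      have e1 : Nat.card (ALL_F p P) = (Finset.univ.filter (fun u : A => u ∈ ALL_F p P)).card := by
        rw [← Set.ncard_coe_finset]
        have : ((Finset.univ.filter (fun u : A => u ∈ ALL_F p P) : Finset A) : Set A) =
            (ALL_F p P : Set A) := by ext x; simp
        rw [this]
        rfl
      rw [e1, add_comm, Finset.card_filter_add_card_filter_not, Finset.card_univ, Nat.card_eq_fintype_card]
    have h7 : Nat.card (ALL_F p P) * p ^ (d' + 1) = Nat.card A := by
      rw [← hi]; exact Subgroup.card_mul_index _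
    have h8 : (Finset.univ.filter (fun u : A => u ∉ ALL_F p P)).card * p ^ (d' + 1) =
        Nat.card A * (p ^ (d' + 1) - 1) := by
      rw [Nat.mul_sub, mul_one]
      have : (Finset.univ.filter (fun u : A => u ∉ ALL_F p P)).card * p ^ (d' + 1) +
          Nat.card (ALL_F p P) * p ^ (d' + 1) = Nat.card A * p ^ (d' + 1) := by
        rw [← add_mul, h6]
      omega
    have e1 : ALL_c p (d' + 1) = ALL_c p d' * (p ^ (d' + 1) - 1) := Finset.prod_range_succ _ _
    have e2 : ALL_e p (d' + 1) = ALL_e p d' * p ^ (d' + 1) := Finset.prod_range_succ _ _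
    rw [e1, e2]
    calc Nat.card A * (ALL_c p d' * (p ^ (d' + 1) - 1)) =
          ((Finset.univ.filter (fun u : A => u ∉ ALL_F p P)).card * p ^ (d' + 1)) * ALL_c p d' := by
          rw [h8]; ring
      _ = ((Finset.univ.filter (fun u : A => u ∉ ALL_F p P)).card * ALL_c p d') * p ^ (d' + 1) := by ring
      _ ≤ (ALL_e p d' * (ALL_R P (p ^ (m + 1))).ncard) * p ^ (d' + 1) := Nat.mul_le_mul_right _ h5
      _ = _ := by ring

/-! ## The order of `P` -/

/-- A fixed point in a coset of `K`. -/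
theorem ALL_fixK {p : ℕ} (hp : p.Prime) (hA : IsPGroup p A) (S : Subgroup (MulAut A))
    (hpS : ¬ p ∣ Nat.card S) (K : Subgroup A) (u : A) (hu : ∀ φ ∈ S, ALL_del φ u ∈ K) :
    ∃ w : A, u⁻¹ * w ∈ K ∧ ∀ φ ∈ S, φ w = w := by
  classical
  have hfin := ALL_finMulAut (A := A)
  have : Fintype S := Fintype.ofFinite S
  have hpf : Fact p.Prime := ⟨hp⟩
  set N : A := ∏ φ : S, (φ : MulAut A) u with hN
  have hfixN : ∀ φ ∈ S, φ N = N := by
    intro φ hφ
    rw [hN, map_prod]
    refine Fintype.prod_equiv (Equiv.mulLeft (⟨φ, hφ⟩ : S)) _ _ ?_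
    intro ψ
    rfl
  have h1 : ∃ y ∈ K, N = u ^ Nat.card S * y := by
    refine ⟨∏ φ : S, ALL_del (φ : MulAut A) u, K.prod_mem fun φ _ => hu φ φ.2, ?_⟩
    rw [Nat.card_eq_fintype_card, ← Finset.card_univ, ← Finset.prod_const,
      ← Finset.prod_mul_distrib, hN]
    refine Finset.prod_congr rfl fun φ _ => ?_
    rw [ALL_del_apply, mul_inv_cancel_left]
  obtain ⟨y, hyK, hy⟩ := h1
  obtain ⟨k, hk⟩ := IsPGroup.iff_card.1 hA
  have hcop : Nat.Coprime (Nat.card S) (p ^ (k + 1)) :=
    Nat.Coprime.pow_right _ (hp.coprime_iff_not_dvd.2 hpS).symm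
  obtain ⟨f, -, hf⟩ := Nat.exists_mul_mod_eq_one_of_coprime hcop
    (Nat.one_lt_pow (by omega) hp.one_lt)
  have hf1 : ∃ g, Nat.card S * f = 1 + p ^ (k + 1) * g := by
    refine ⟨Nat.card S * f / p ^ (k + 1), ?_⟩
    have := Nat.mod_add_div (Nat.card S * f) (p ^ (k + 1))
    rw [hf] at this
    exact this.symm
  obtain ⟨g, hg⟩ := hf1
  refine ⟨N ^ f, ?_, ?_⟩
  · have h2 : ∀ x : A, x ^ p ^ k = 1 := by
      intro x
      rw [← hk]
      exact pow_card_eq_one'
    rw [hy, mul_pow, ← pow_mul, hg, pow_add, pow_one, pow_mul, pow_succ, pow_mul, h2, one_pow, one_pow,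
      mul_one, inv_mul_cancel_left]
    exact K.pow_mem hyK f
  · intro φ hφ
    rw [map_pow, hfixN φ hφ]

omit [Finite A] in
theorem ALL_F_inv (p : ℕ) (P : Subgroup (MulAut A)) {ψ : MulAut A} (hψ : ψ ∈ P) {x : A} (hx : x ∈ ALL_F p P) :
    ψ x ∈ ALL_F p P := by
  intro φ hφ
  obtain ⟨v, hv⟩ := hx (ψ⁻¹ * φ * ψ) (P.mul_mem (P.mul_mem (P.inv_mem hψ) hφ) hψ)
  refine ⟨ψ v, ?_⟩
  rw [← map_pow, hv, ALL_del_apply, ALL_del_apply, map_mul, map_inv, MulAut.mul_apply, MulAut.mul_apply,
    MulAut.apply_inv_self]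

theorem ALL_c_mono {p : ℕ} (hp : p.Prime) {a b : ℕ} (h : a ≤ b) : ALL_c p a ≤ ALL_c p b := by
  induction b, h using Nat.le_induction with
  | base => exact le_rfl
  | succ n _ ih =>
    refine ih.trans ?_
    rw [ALL_c, ALL_c, Finset.prod_range_succ]
    refine Nat.le_mul_of_pos_right _ ?_
    have : 2 ≤ p ^ (n + 1) := hp.two_le.trans (Nat.le_self_pow (by omega) p)
    omega

/-- `|P| ≤ ∏ (p ^ i - 1)`. -/
theorem ALL_ord {p : ℕ} (hp : p.Prime) (hA : IsPGroup p A) : ∀ (d : ℕ) (P : Subgroup (MulAut A)),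
    ¬ p ∣ Nat.card P → (ALL_F p P).index = p ^ d → Nat.card P ≤ ALL_c p d := by
  classical
  have hfin := ALL_finMulAut (A := A)
  have hpf : Fact p.Prime := ⟨hp⟩
  intro d
  induction d using Nat.strong_induction_on with
  | _ d ih =>
    intro P hpP hi
    rcases Nat.eq_zero_or_pos d with hd0 | hd0
    · subst hd0
      rw [pow_zero, Subgroup.index_eq_one] at hi
      have h0 : P = ⊥ := by
        rw [eq_bot_iff]
        intro φ hφ
        rw [Subgroup.mem_bot]
        have h2 : φ ^ Nat.card P = 1 := by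
          have h3 : (⟨φ, hφ⟩ : P) ^ Nat.card P = 1 := pow_card_eq_one'
          have h4 := congrArg Subtype.val h3
          rwa [Subgroup.coe_pow, Subgroup.coe_one] at h4
        refine ALL_triv hp hA φ _ h2 hpP ?_
        intro u
        have hu : u ∈ ALL_F p P := by rw [hi]; exact Subgroup.mem_top u
        exact hu φ hφ
      rw [h0, Subgroup.card_bot]
      simp [ALL_c]
    obtain ⟨d', rfl⟩ := Nat.exists_eq_succ_of_ne_zero hd0.ne'
    rw [Nat.succ_eq_add_one] at *
    have hex : ∃ u : A, u ∉ ALL_F p P := by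
      by_contra hcon
      push Not at hcon
      have : ALL_F p P = ⊤ := by
        rw [Subgroup.eq_top_iff']; exact hcon
      rw [this, Subgroup.index_top] at hi
      have := Nat.one_lt_pow (n := d' + 1) (by omega) hp.one_lt
      omega
    obtain ⟨u, hu⟩ := hex
    set F := ALL_F p P with hF
    let S : Subgroup (MulAut A) :=
      { carrier := {φ | φ ∈ P ∧ ALL_del φ u ∈ F}
        one_mem' := ⟨P.one_mem, by
          have : ALL_del (1 : MulAut A) u = 1 := by rw [ALL_del_apply]; simp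
          rw [this]; exact F.one_mem⟩
        mul_mem' := by
          rintro a b ⟨ha, ha'⟩ ⟨hb, hb'⟩
          refine ⟨P.mul_mem ha hb, ?_⟩
          have : ALL_del (a * b) u = ALL_del a u * a (ALL_del b u) := by
            rw [ALL_del_apply, ALL_del_apply, ALL_del_apply, map_mul, map_inv, MulAut.mul_apply,
              mul_assoc, mul_inv_cancel_left]
          rw [this]
          exact F.mul_mem ha' (ALL_F_inv p P ha hb')
        inv_mem' := by
          rintro a ⟨ha, ha'⟩
          refine ⟨P.inv_mem ha, ?_⟩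
          have : ALL_del a⁻¹ u = (a⁻¹ (ALL_del a u))⁻¹ := by
            rw [ALL_del_apply, ALL_del_apply, map_mul, map_inv, MulAut.inv_apply_self, mul_inv, inv_inv,
              mul_comm]
          rw [this]
          exact F.inv_mem (ALL_F_inv p P (P.inv_mem ha) ha') }
    have hSP : S ≤ P := fun φ hφ => hφ.1
    have hpS : ¬ p ∣ Nat.card S := fun h => hpP (h.trans (Subgroup.card_dvd_of_le hSP))
    obtain ⟨w, hw1, hw2⟩ := ALL_fixK hp hA S hpS F u (fun φ hφ => hφ.2)
    have hle : F ≤ ALL_F p S := fun x hx φ hφ => hx φ (hSP hφ)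
    have hwS : w ∈ ALL_F p S := fun φ hφ => ⟨1, by rw [one_pow, ALL_del_apply, hw2 φ hφ, inv_mul_cancel]⟩
    have hwF : w ∉ F := by
      intro h
      apply hu
      have : u = w * (u⁻¹ * w)⁻¹ := by rw [mul_inv, inv_inv, mul_comm u, mul_inv_cancel_left]
      rw [this]
      exact F.mul_mem h (F.inv_mem hw1)
    have hmul := Subgroup.relIndex_mul_index hle
    obtain ⟨a, ha⟩ := (Nat.dvd_prime_pow hp).1 (Dvd.intro _ hmul |>.trans (dvd_of_eq hi))
    obtain ⟨b, hb⟩ := (Nat.dvd_prime_pow hp).1 (Dvd.intro_left _ hmul |>.trans (dvd_of_eq hi))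
    have hab : a + b = d' + 1 := by
      rw [ha.2, hb.2, ← pow_add, hi] at hmul
      exact Nat.pow_right_injective hp.two_le hmul
    have ha0 : a ≠ 0 := by
      intro h
      rw [h, pow_zero] at ha
      exact hwF (Subgroup.relIndex_eq_one.1 ha.2 hwS)
    have h4 : Nat.card S ≤ ALL_c p d' := (ih b (by omega) S hpS hb.2).trans (ALL_c_mono hp (by omega))
    -- the orbit
    have h5 : S.relIndex P ≤ p ^ (d' + 1) - 1 := by
      have hq : Nat.card {x : A ⧸ F // x ≠ 1} = p ^ (d' + 1) - 1 := by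
        have : Fintype (A ⧸ F) := Fintype.ofFinite _
        rw [Nat.card_eq_fintype_card, Fintype.card_subtype_compl, Fintype.card_subtype_eq,
          ← Nat.card_eq_fintype_card, ← hi]
        rfl
      rw [← hq]
      have hinj : ∀ φ ψ : P, (QuotientGroup.mk ((φ : MulAut A) u) : A ⧸ F) =
          QuotientGroup.mk ((ψ : MulAut A) u) ↔ φ⁻¹ * ψ ∈ S.subgroupOf P := by
        intro φ ψ
        rw [QuotientGroup.eq, Subgroup.mem_subgroupOf]
        have e1 : ((φ : MulAut A) u)⁻¹ * (ψ : MulAut A) u =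
            (φ : MulAut A) (ALL_del ((φ : MulAut A)⁻¹ * (ψ : MulAut A)) u) := by
          rw [ALL_del_apply, map_mul, map_inv, MulAut.mul_apply, MulAut.apply_inv_self]
        rw [e1]
        constructor
        · intro h
          refine ⟨P.mul_mem (P.inv_mem φ.2) ψ.2, ?_⟩
          have := ALL_F_inv p P (P.inv_mem φ.2) h
          rwa [MulAut.inv_apply_self] at this
        · rintro ⟨-, h⟩
          exact ALL_F_inv p P φ.2 h
      have hne : ∀ φ : P, (QuotientGroup.mk ((φ : MulAut A) u) : A ⧸ F) ≠ 1 := by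
        intro φ h
        rw [QuotientGroup.eq_one_iff] at h
        apply hu
        have := ALL_F_inv p P (P.inv_mem φ.2) h
        rwa [MulAut.inv_apply_self] at this
      rw [Subgroup.relIndex, Subgroup.index]
      refine Nat.card_le_card_of_injective
        (fun x : P ⧸ S.subgroupOf P => Quotient.liftOn' x
          (fun φ => (⟨QuotientGroup.mk ((φ : MulAut A) u), hne φ⟩ : {x : A ⧸ F // x ≠ 1}))
          (fun φ ψ h => Subtype.ext ((hinj φ ψ).2 (QuotientGroup.leftRel_apply.1 h)))) ?_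
      intro x y
      induction x using QuotientGroup.induction_on with
      | _ φ =>
        induction y using QuotientGroup.induction_on with
        | _ ψ =>
          intro h
          rw [QuotientGroup.eq]
          exact (hinj φ ψ).1 (congrArg Subtype.val h)
    have h6 : Nat.card S * S.relIndex P = Nat.card P := by
      have := Subgroup.relIndex_mul_relIndex ⊥ S P bot_le hSP
      rwa [Subgroup.relIndex_bot_left, Subgroup.relIndex_bot_left] at this
    rw [← h6, ALL_c, Finset.prod_range_succ]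
    exact Nat.mul_le_mul h4 h5

/-- **(ALL)**, second form: all `p'`-groups `P`. -/
theorem ALL_abs2 {p : ℕ} (hp : p.Prime) (hp2 : p ≠ 2) (hA : IsPGroup p A) (P : Subgroup (MulAut A))
    (hpP : ¬ p ∣ Nat.card P) (r j : ℕ) (hr : 1 ≤ r) (hrj : r ≤ j) (hrj2 : r * (r + 1) < 4 * j)
    (hΩ : Nat.card (powMonoidHom p : A →* A).ker = p ^ r)
    (h : ∀ v : A, v ^ p = 1 → ∃ z : A, z ^ p ^ (j - 1) = v) :
    (∃ u : A, (∀ φ ∈ P, φ ≠ 1 → ¬ ∃ v : A, v ^ p ^ j = ALL_del φ u) ∧
      ¬ ∃ v : A, v ^ p ^ j = u ^ p ^ (j - 1)) ∧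
    Nat.card P * Nat.card A < p ^ (2 * (j - 1) + 2) * {u : A | ∀ φ ∈ P, φ u = u → φ = 1}.ncard := by
  classical
  have hfin := ALL_finMulAut (A := A)
  have hpf : Fact p.Prime := ⟨hp⟩
  have hp3 : 3 ≤ p := by
    have := hp.two_le
    omega
  have hApos : 0 < Nat.card A := Nat.card_pos
  -- the dimension
  have hle : (powMonoidHom p : A →* A).range ≤ ALL_F p P := by
    rintro _ ⟨x, rfl⟩ φ _
    exact ⟨ALL_del φ x, by rw [powMonoidHom_apply, map_pow]⟩
  have hidx : (powMonoidHom p : A →* A).range.index = p ^ r := by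
    have h1 := ALL_idx (A := A) p
    have h2 := Subgroup.card_mul_index (powMonoidHom p : A →* A).range
    rw [hΩ] at h1
    rw [← h1, mul_comm] at h2
    exact Nat.eq_of_mul_eq_mul_right Nat.card_pos h2
  obtain ⟨d, hd, hdi⟩ := (Nat.dvd_prime_pow hp).1 ((Subgroup.index_dvd_of_le hle).trans (dvd_of_eq hidx))
  have h1 := ALL_lev hp hA j h P hpP d (hd.trans hrj) hdi
  have h2 := ALL_ord hp hA d P hpP hdi
  have h3 := ALL_ce p d r hd
  have h4 : 0 < ALL_e p d := Finset.prod_pos fun i _ => pow_pos hp.pos _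
  have h5 : Nat.card A * ALL_c p r ≤ ALL_e p r * (ALL_R P (p ^ j)).ncard := by
    refine Nat.le_of_mul_le_mul_left ?_ h4
    calc ALL_e p d * (Nat.card A * ALL_c p r) = Nat.card A * (ALL_c p r * ALL_e p d) := by ring
      _ ≤ Nat.card A * (ALL_c p d * ALL_e p r) := Nat.mul_le_mul_left _ h3
      _ = (Nat.card A * ALL_c p d) * ALL_e p r := by ring
      _ ≤ (ALL_e p d * (ALL_R P (p ^ j)).ncard) * ALL_e p r := Nat.mul_le_mul_right _ h1
      _ = _ := by ring
  have hcpos : ∀ k, 0 < ALL_c p k := by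
    intro k
    refine Finset.prod_pos fun i _ => ?_
    have : 2 ≤ p ^ (i + 1) := hp.two_le.trans (Nat.le_self_pow (by omega) p)
    omega
  have hce : ∀ k, 1 ≤ k → ALL_e p k < ALL_c p k * p ^ k := by
    intro k hk
    induction k, hk using Nat.le_induction with
    | base =>
      simp only [ALL_e, ALL_c, Finset.prod_range_one, zero_add, pow_one]
      have : 1 * p < (p - 1) * p := Nat.mul_lt_mul_of_pos_right (by omega) (by omega)
      omega
    | succ n hn ih =>
      rw [ALL_e, Finset.prod_range_succ, ALL_c, Finset.prod_range_succ]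
      rw [ALL_e, ALL_c] at ih
      have e1 : p ^ (n + 1) ≤ (p ^ (n + 1) - 1) * p := by
        have e2 : 1 ≤ p ^ (n + 1) := Nat.one_le_pow _ _ hp.pos
        have e3 : p ≤ p ^ (n + 1) := Nat.le_self_pow (by omega) p
        obtain ⟨q, hq⟩ : ∃ q, p ^ (n + 1) = q + 1 := ⟨p ^ (n + 1) - 1, by omega⟩
        rw [hq, Nat.add_sub_cancel]
        have : q * 3 ≤ q * p := Nat.mul_le_mul_left _ hp3
        omega
      calc (∏ i ∈ Finset.range n, p ^ (i + 1)) * p ^ (n + 1) <
            ((∏ i ∈ Finset.range n, (p ^ (i + 1) - 1)) * p ^ n) * p ^ (n + 1) :=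
            Nat.mul_lt_mul_of_pos_right ih (pow_pos hp.pos _)
        _ ≤ ((∏ i ∈ Finset.range n, (p ^ (i + 1) - 1)) * p ^ n) * ((p ^ (n + 1) - 1) * p) :=
            Nat.mul_le_mul_left _ e1
        _ = _ := by rw [pow_succ]; ring
  constructor
  · by_contra hcon
    push Not at hcon
    have hsub : ALL_R P (p ^ j) ⊆ ((powMonoidHom p : A →* A).range : Set A) := by
      intro u hu
      obtain ⟨v, hv⟩ := hcon u (fun φ hφ h1 v hv => hu φ hφ h1 ⟨v, hv⟩)
      obtain ⟨y, hy⟩ := ALL_div (j - 1) h (j - 1) le_rfl (u * (v ^ p)⁻¹) (by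
        rw [mul_pow, inv_pow, ← pow_mul, ← pow_succ', Nat.sub_add_cancel (hr.trans hrj), hv,
          mul_inv_cancel])
      refine ⟨y * v, ?_⟩
      show (y * v) ^ p = u
      rw [mul_pow, hy, inv_mul_cancel_right]
    have h6 : (ALL_R P (p ^ j)).ncard ≤ Nat.card (powMonoidHom p : A →* A).range :=
      Set.ncard_le_ncard hsub (Set.toFinite _)
    have h7 := ALL_idx (A := A) p
    rw [hΩ] at h7
    have h8 : ALL_e p r * Nat.card A < (ALL_c p r * p ^ r) * Nat.card A :=
      Nat.mul_lt_mul_of_pos_right (hce r hr) hApos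
    have h9 : (ALL_c p r * p ^ r) * Nat.card A ≤ ALL_e p r * Nat.card A := by
      calc (ALL_c p r * p ^ r) * Nat.card A = p ^ r * (Nat.card A * ALL_c p r) := by ring
        _ ≤ p ^ r * (ALL_e p r * Nat.card (powMonoidHom p : A →* A).range) :=
            Nat.mul_le_mul_left _ (h5.trans (Nat.mul_le_mul_left _ h6))
        _ = ALL_e p r * (p ^ r * Nat.card (powMonoidHom p : A →* A).range) := by ring
        _ = _ := by rw [h7]
    omega
  · have h6 : (ALL_R P (p ^ j)).ncard ≤ {u : A | ∀ φ ∈ P, φ u = u → φ = 1}.ncard := by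
      refine Set.ncard_le_ncard ?_ (Set.toFinite _)
      intro u hu φ hφ h1
      by_contra h2
      exact hu φ hφ h2 ⟨1, by rw [one_pow, ALL_del_apply, h1, inv_mul_cancel]⟩
    have hpos : 0 < (ALL_R P (p ^ j)).ncard := by
      rcases Nat.eq_zero_or_pos (ALL_R P (p ^ j)).ncard with h0 | h0
      · rw [h0, mul_zero] at h5
        have := Nat.mul_pos hApos (hcpos r)
        omega
      · exact h0
    have h7 : ALL_e p r < p ^ (2 * (j - 1) + 2) := by
      have e1 : ALL_e p r = p ^ (r * (r + 1) / 2) := by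
        rw [ALL_e, Finset.prod_pow_eq_pow_sum]
        congr 1
        have := Finset.sum_range_id_mul_two (r + 1)
        rw [Finset.sum_range_succ'] at this
        simp only [add_zero, Nat.add_sub_cancel] at this
        rw [mul_comm r (r + 1)]
        omega
      rw [e1]
      exact Nat.pow_lt_pow_right hp.one_lt (by omega)
    calc Nat.card P * Nat.card A ≤ ALL_c p r * Nat.card A :=
          Nat.mul_le_mul_right _ (h2.trans (ALL_c_mono hp hd))
      _ = Nat.card A * ALL_c p r := mul_comm _ _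
      _ ≤ ALL_e p r * (ALL_R P (p ^ j)).ncard := h5
      _ < p ^ (2 * (j - 1) + 2) * (ALL_R P (p ^ j)).ncard := Nat.mul_lt_mul_of_pos_right h7 hpos
      _ ≤ _ := Nat.mul_le_mul_left _ h6

end ALLB

end Pool.Agent.LE
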