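import Pool.Agent.helper95.LE.ALLT
import Pool.Agent.helper95.LE.ALLB
import Pool.Agent.helper67.LE.R2Fin

/-!
# Project LE (MP_baa4d7_al): the rows RKR, RKC, RKZ and the bound for the order of the inertial quotient
-/

set_option autoImplicit false

namespace Pool.Agent.LE

open Pool.Agent.helper58.DC Pool.Agent.DI Pool.Agent.GR Pool.Agent.OB Pool.Agent.DR Pool.Agent.FI Pool.Agent.FI3 Pool.Agent.FI4 Pool.Agent.FIL

section ALR

variable {G : Type} [Group G] [Finite G]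

theorem ALR_cop {p : ℕ} {D T : Subgroup G} (hG : GDT p D T) : ¬ p ∣ Nat.card (ALT_rho D T hG.nor).range := by
  rw [ALT_card]; exact hG.cop

/-- Rank `r`, all invariants at least `p ^ j`. -/
theorem ALR_hle {p : ℕ} {D T : Subgroup G} (hG : GDT p D T) {r : ℕ} (a : Fin r → ℕ) (j : ℕ) (hr : 1 ≤ r) (hj : 1 ≤ j)
    (ha : ∀ i, j ≤ a i) (hinv : Invariants p D a)
    (hn : (cz D).relIndex T ≤ (p - 1) * p ^ (j - 1) ∨ (r ≤ j ∧ r * (r + 1) < 4 * j)) :
    ∃ h : ℕ, HLE p (j * (r - 1) + 1) h G D T := by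
  obtain ⟨e⟩ := hinv
  letI := ALT_inst D hG.com
  have hΩ : Nat.card (powMonoidHom p : D →* D).ker = p ^ r := by
    rw [Rank2.card_ker_pi hG.pr a e p]
    have : ∀ i ∈ (Finset.univ : Finset (Fin r)), (p ^ a i).gcd p = p := by
      intro i _
      exact Nat.gcd_eq_right (dvd_pow_self p (by have := ha i; omega))
    rw [Finset.prod_congr rfl this, Finset.prod_const, Finset.card_univ, Fintype.card_fin]
  have hdiv : ∀ v : D, v ^ p = 1 → ∃ z : D, z ^ p ^ (j - 1) = v := fun v hv =>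
    Rank2.om_pi hG.pr a e hj ha v hv
  have hjr : p ^ (j * (r - 1) + 1 + (j - 1)) = p ^ (j * r) := by
    congr 1
    obtain ⟨r', rfl⟩ := Nat.exists_eq_succ_of_ne_zero (by omega : r ≠ 0)
    rw [Nat.succ_eq_add_one, Nat.add_sub_cancel, Nat.mul_add]
    omega
  have hidx : Nat.card D ≤ p ^ (j * (r - 1) + 1 + (j - 1)) * Nat.card (powMonoidHom (p ^ j) : D →* D).range := by
    rw [hjr]
    have h1 := ALL_om (A := D) p j
    rw [hΩ, ← pow_mul] at h1
    rw [← ALL_idx (A := D) (p ^ j), mul_comm j r]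
    exact Nat.mul_le_mul_right _ h1
  rcases hn with hn | ⟨hn1, hn2⟩
  · have hn' : Nat.card (ALT_rho D T hG.nor).range ≤ p ^ j - p ^ (j - 1) := by
      rw [ALT_card]
      refine hn.trans (le_of_eq ?_)
      rw [Nat.sub_mul, one_mul, ← pow_succ', Nat.sub_add_cancel hj]
    obtain ⟨⟨u, hu1, hu2⟩, -, h3⟩ := ALL_abs hG.pr hG.pg (ALT_rho D T hG.nor).range (ALR_cop hG) r j hr hj hΩ
      hdiv hn'
    exact ⟨j / 2, ALT_hle hG j (j - 1) _ (j / 2) (by omega) ⟨u, hu1, Or.inr hu2⟩ hidx h3⟩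
  · obtain ⟨⟨u, hu1, hu2⟩, h3⟩ := ALL_abs2 hG.pr hG.odd hG.pg (ALT_rho D T hG.nor).range (ALR_cop hG) r j hr
      hn1 hn2 hΩ hdiv
    exact ⟨j - 1, ALT_hle hG j (j - 1) _ (j - 1) (by omega) ⟨u, hu1, Or.inr hu2⟩ hidx h3⟩

/-- `HZE` from the number of commutators. -/
theorem ALR_hze {p : ℕ} {D T : Subgroup G} (hG : GDT p D T) (m : ℕ) (hm : 1 ≤ m)
    (hdiv : ∀ u ∈ D, u ^ p = 1 → ∃ v ∈ D, v ^ p ^ (m - 1) = u) (hn1 : (cz D).relIndex T < p ^ 2)
    (hn2 : p ^ 2 * ((cz D).relIndex T - 1) < p ^ m * (p ^ 2 - (cz D).relIndex T)) :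
    HZE p G D T := by
  classical
  letI := ALT_inst D hG.com
  set P := (ALT_rho D T hG.nor).range with hP
  have hcardP : Nat.card P = (cz D).relIndex T := ALT_card D T hG.nor
  have hpP := ALR_cop hG
  have hdiv' : ∀ v : D, v ^ p = 1 → ∃ z : D, z ^ p ^ (m - 1) = v := by
    intro v hv
    obtain ⟨z, hz, hz'⟩ := hdiv v v.2 (by rw [← Subgroup.coe_pow, hv, Subgroup.coe_one])
    exact ⟨⟨z, hz⟩, Subtype.ext hz'⟩
  have hw : ∀ φ ∈ P, φ ≠ 1 → ∃ w, ALL_del φ w ^ p ^ (m - 1) ≠ 1 := by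
    intro φ hφ h1
    have h2 : φ ^ Nat.card P = 1 := by
      have h3 : (⟨φ, hφ⟩ : P) ^ Nat.card P = 1 := pow_card_eq_one'
      have h4 := congrArg Subtype.val h3
      rwa [Subgroup.coe_pow, Subgroup.coe_one] at h4
    exact ALL_wit hG.pr hG.pg φ h1 _ h2 hpP (m - 1) hdiv'
  have hcnt := ALL_cnt hG.pr hG.pg P hpP m hm hw
  have h1 : (fun u : D => (u : G)) '' {u : D | ∀ φ ∈ P, φ u = u → φ = 1} ⊆ RGT D T := by
    rintro _ ⟨u, hu, rfl⟩
    refine ⟨u.2, ?_⟩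
    intro t ht htu
    rw [← ALT_ker D T hG.nor ⟨t, ht⟩]
    refine hu _ ⟨⟨t, ht⟩, rfl⟩ ?_
    apply Subtype.ext
    rw [ALT_rho_apply]
    change t * (u : G) * t⁻¹ = u
    rw [htu, mul_inv_cancel_right]
  have h2 : {u : D | ∀ φ ∈ P, φ u = u → φ = 1}.ncard ≤ (RGT D T).ncard := by
    rw [← Set.ncard_image_of_injective _ Subtype.val_injective]
    exact Set.ncard_le_ncard h1 (Set.toFinite _)
  set U := {u : D | ∃ φ ∈ P, φ ≠ 1 ∧ ∃ v : D, v ^ p ^ m = ALL_del φ u} with hU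
  have h3 : Nat.card D ≤ U.ncard + {u : D | ∀ φ ∈ P, φ u = u → φ = 1}.ncard := by
    have hall : (Set.univ : Set D) ⊆ U ∪ {u : D | ∀ φ ∈ P, φ u = u → φ = 1} := by
      intro u _
      by_contra hu
      rw [Set.mem_union, not_or] at hu
      apply hu.2
      intro φ hφ h1
      by_contra h2
      apply hu.1
      refine ⟨φ, hφ, h2, 1, ?_⟩
      rw [one_pow, ALL_del_apply, h1, inv_mul_cancel]
    rw [← Set.ncard_univ]
    exact (Set.ncard_le_ncard hall (Set.toFinite _)).trans (Set.ncard_union_le _ _)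
  have hD : 0 < Nat.card D := Nat.card_pos
  have hpm : 0 < p ^ m := pow_pos hG.pr.pos _
  rw [hcardP] at hcnt
  show (cz D).relIndex T * Nat.card D < p ^ 2 * (RGT D T).ncard
  obtain ⟨n, hn⟩ : ∃ n, n = (cz D).relIndex T := ⟨_, rfl⟩
  rw [← hn] at hcnt hn1 hn2 ⊢
  have h4 : p ^ m * Nat.card D ≤ (n - 1) * Nat.card D + p ^ m * (RGT D T).ncard := by
    calc p ^ m * Nat.card D ≤ p ^ m * (U.ncard + (RGT D T).ncard) :=
          Nat.mul_le_mul_left _ (h3.trans (Nat.add_le_add_left h2 _))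
      _ = p ^ m * U.ncard + p ^ m * (RGT D T).ncard := mul_add _ _ _
      _ ≤ _ := Nat.add_le_add_right hcnt _
  -- multiply by `p ^ 2`
  refine lt_of_mul_lt_mul_left (a := p ^ m) ?_ (Nat.zero_le _)
  have h5 : p ^ 2 * (n - 1) + p ^ m * n < p ^ m * p ^ 2 := by
    have : p ^ m * (p ^ 2 - n) + p ^ m * n = p ^ m * p ^ 2 := by
      rw [← mul_add, Nat.sub_add_cancel hn1.le]
    omega
  have h6 : (p ^ 2 * (n - 1) + p ^ m * n) * Nat.card D < (p ^ m * p ^ 2) * Nat.card D :=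
    Nat.mul_lt_mul_of_pos_right h5 hD
  have h7 : p ^ 2 * (p ^ m * Nat.card D) ≤ p ^ 2 * ((n - 1) * Nat.card D + p ^ m * (RGT D T).ncard) :=
    Nat.mul_le_mul_left _ h4
  nlinarith [h6, h7]

end ALR

theorem RKR : RKR_stmt := by
  intro p M G _ _ D θ _ hG r a j hr hj ha hinv hn
  exact ALR_hle hG a j hr hj ha hinv hn

theorem RKC : RKC_stmt := by
  intro p M G _ _ D θ _ hG r a c hc ha hinv
  exact Rank2.hwe_of hG a hc ha hinv

/-- The three cases: `|I| < p`; `|I| ≤ (p - 1) p` and the elements of order `p` are `p ^ 2`-th powers;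
`|I| < p ^ 2` and they are `p ^ 3`-th powers. -/
theorem RKZ' {G : Type} [Group G] [Finite G] {p : ℕ} {D T : Subgroup G} (hG : GDT p D T)
    (h : (cz D).relIndex T < p ∨
      ((cz D).relIndex T ≤ (p - 1) * p ∧ ∀ u ∈ D, u ^ p = 1 → ∃ v ∈ D, v ^ p ^ 2 = u) ∨
      ((cz D).relIndex T < p ^ 2 ∧ ∀ u ∈ D, u ^ p = 1 → ∃ v ∈ D, v ^ p ^ 3 = u)) : HZE p G D T := by
  have hp3 : 3 ≤ p := by
    have := hG.pr.two_le
    have := hG.odd
    omega
  obtain ⟨n, hn⟩ : ∃ n, n = (cz D).relIndex T := ⟨_, rfl⟩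
  rw [← hn] at h
  rcases h with h | ⟨h1, h2⟩ | ⟨h1, h2⟩
  · have e1 : p * p = p ^ 2 := by ring
    have e2 : p ≤ p ^ 2 := by nlinarith
    refine ALR_hze hG 1 le_rfl (fun u hu _ => ⟨u, hu, by simp⟩) (by rw [← hn]; omega) ?_
    rw [← hn, pow_one]
    obtain ⟨k, hk⟩ : ∃ k, p = n + 1 + k := ⟨p - n - 1, by omega⟩
    have e3 : p ^ 2 * (n - 1) ≤ p * (p * (n - 1)) := by rw [← mul_assoc, e1]
    refine lt_of_le_of_lt e3 (Nat.mul_lt_mul_of_pos_left ?_ (by omega))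
    rcases Nat.eq_zero_or_pos n with h0 | h0
    · subst h0
      simp only [Nat.zero_sub, Nat.mul_zero, Nat.sub_zero]
      positivity
    · obtain ⟨n', rfl⟩ := Nat.exists_eq_succ_of_ne_zero h0.ne'
      rw [Nat.succ_eq_add_one, Nat.add_sub_cancel]
      have : p * n' + (n' + 1) < p ^ 2 := by
        have h4 : n' + 1 + 1 ≤ p := h
        nlinarith
      omega
  · have e1 : (p - 1) * p + p = p ^ 2 := by
      obtain ⟨k, rfl⟩ : ∃ k, p = k + 1 := ⟨p - 1, by omega⟩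
      rw [Nat.add_sub_cancel]; ring
    refine ALR_hze hG 3 (by norm_num) h2 (by rw [← hn]; omega) ?_
    rw [← hn]
    have e2 : p ≤ p ^ 2 - n := by omega
    have e3 : p ^ 2 * (n - 1) < p ^ 2 * p ^ 2 := Nat.mul_lt_mul_of_pos_left (by omega) (by positivity)
    calc p ^ 2 * (n - 1) < p ^ 2 * p ^ 2 := e3
      _ = p ^ 3 * p := by ring
      _ ≤ _ := Nat.mul_le_mul_left _ e2
  · refine ALR_hze hG 4 (by norm_num) h2 (by rw [← hn]; omega) ?_
    rw [← hn]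
    have e3 : p ^ 2 * (n - 1) < p ^ 2 * p ^ 2 := Nat.mul_lt_mul_of_pos_left (by omega) (by positivity)
    calc p ^ 2 * (n - 1) < p ^ 2 * p ^ 2 := e3
      _ = p ^ 4 * 1 := by ring
      _ ≤ _ := Nat.mul_le_mul_left _ (by omega)

theorem RKZ : RKZ_stmt := by
  intro p M G _ _ D θ _ hG h
  exact RKZ' hG h

end Pool.Agent.LE
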